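import Pool.Agent.Helper76.CQ.Desc
import Pool.Agent.Helper76.CY.Fano

/-!
# Project CQ, piece D4a: descent of ideal membership along a field extension
-/

namespace Pool.Agent.Helper39.CQ

open MvPolynomial Pool.Agent.Helper76.CY Pool.Agent.Helper76.CQ

section

variable {K L ι : Type*} [Field K] [Field L] [Algebra K L]

/-- A linear form on `L` applied to the coefficients of a polynomial. -/
noncomputable def cf (φ : L →ₗ[K] K) (p : MvPolynomial ι L) : MvPolynomial ι K :=
  ∑ m ∈ p.support, monomial m (φ (coeff m p))

theorem coeff_cf (φ : L →ₗ[K] K) (p : MvPolynomial ι L) (m : ι →₀ ℕ) :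
    coeff m (cf φ p) = φ (coeff m p) := by
  classical
  rw [cf, coeff_sum]
  simp only [coeff_monomial]
  rw [Finset.sum_ite_eq' p.support m]
  split_ifs with h
  · rfl
  · rw [notMem_support_iff.1 h, map_zero]

theorem cf_add (φ : L →ₗ[K] K) (p q : MvPolynomial ι L) : cf φ (p + q) = cf φ p + cf φ q := by
  ext m
  rw [coeff_cf, coeff_add, map_add, coeff_add, coeff_cf, coeff_cf]

theorem cf_zero (φ : L →ₗ[K] K) : cf φ (0 : MvPolynomial ι L) = 0 := by
  ext m
  rw [coeff_cf, coeff_zero, map_zero, coeff_zero]

theorem cf_mul_map (φ : L →ₗ[K] K) (p : MvPolynomial ι L) (g : MvPolynomial ι K) :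
    cf φ (p * MvPolynomial.map (algebraMap K L) g) = cf φ p * g := by
  classical
  ext m
  rw [coeff_cf, coeff_mul, coeff_mul, map_sum]
  refine Finset.sum_congr rfl fun x _ => ?_
  rw [coeff_map, coeff_cf, mul_comm (coeff x.1 p), ← Algebra.smul_def, map_smul, smul_eq_mul,
    mul_comm]

theorem cf_mem (φ : L →ₗ[K] K) (I : Ideal (MvPolynomial ι K)) {q : MvPolynomial ι L}
    (hq : q ∈ I.map (MvPolynomial.map (algebraMap K L) : MvPolynomial ι K →+* MvPolynomial ι L)) :
    cf φ q ∈ I := by
  have h : ∀ p, cf φ (p * q) ∈ I := by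
    induction hq using Submodule.span_induction with
    | mem x hx =>
      obtain ⟨g, hg, rfl⟩ := hx
      intro p
      have h1 := cf_mul_map φ p g
      rw [h1]
      exact I.mul_mem_left _ hg
    | zero =>
      intro p
      rw [mul_zero, cf_zero]
      exact I.zero_mem
    | add x y _ _ hx hy =>
      intro p
      rw [mul_add, cf_add]
      exact I.add_mem (hx p) (hy p)
    | smul a x _ hx =>
      intro p
      rw [smul_eq_mul, ← mul_assoc]
      exact hx (p * a)
  have h1 := h 1
  rwa [one_mul] at h1

theorem aeval_cf (φ : L →ₗ[K] K) (z : ι → L) (p : MvPolynomial ι L) :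
    aeval z (cf φ p) = ∑ d ∈ p.support, algebraMap K L (φ (coeff d p)) *
      ∏ i ∈ d.support, z i ^ d i := by
  rw [cf, map_sum]
  refine Finset.sum_congr rfl fun d _ => ?_
  rw [aeval_monomial]
  rfl

/-- If `S f` is in the ideal generated over `L` for some `S` with `S(z) ≠ 0`, then the same holds
over `K`. -/
theorem desc_mem {K L ι : Type*} [Field K] [Field L] [Algebra K L] (I : Ideal (MvPolynomial ι K))
    (z : ι → L) (f : MvPolynomial ι K) (S : MvPolynomial ι L) (hS : eval z S ≠ 0)
    (h : S * MvPolynomial.map (algebraMap K L) f ∈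
      I.map (MvPolynomial.map (algebraMap K L) : MvPolynomial ι K →+* MvPolynomial ι L)) :
    ∃ s : MvPolynomial ι K, aeval z s ≠ 0 ∧ s * f ∈ I := by
  classical
  by_contra hcon
  push Not at hcon
  apply hS
  let b := Module.Basis.ofVectorSpace K L
  have h1 : ∀ i, aeval z (cf (b.coord i) S) = 0 := by
    intro i
    by_contra h0
    refine hcon _ h0 ?_
    rw [← cf_mul_map]
    exact cf_mem _ I h
  let F := S.support.biUnion (fun m => (b.repr (coeff m S)).support)
  have h2 : ∀ d ∈ S.support, coeff d S = ∑ i ∈ F, b i * algebraMap K L (b.coord i (coeff d S)) := by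
    intro d hd
    have h3 := b.linearCombination_repr (coeff d S)
    rw [Finsupp.linearCombination_apply] at h3
    have h4 := Finsupp.sum_of_support_subset (b.repr (coeff d S)) (s := F)
      (fun x hx => Finset.mem_biUnion.2 ⟨d, hd, hx⟩) (fun i a => a • b i)
      (fun _ _ => zero_smul _ _)
    rw [h3] at h4
    refine h4.trans (Finset.sum_congr rfl fun i _ => ?_)
    rw [Algebra.smul_def, mul_comm, Module.Basis.coord_apply]
  rw [eval_eq]
  calc ∑ d ∈ S.support, coeff d S * ∏ i ∈ d.support, z i ^ d i
      = ∑ d ∈ S.support, ∑ i ∈ F, b i * (algebraMap K L (b.coord i (coeff d S)) *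
          ∏ i ∈ d.support, z i ^ d i) := by
        refine Finset.sum_congr rfl fun d hd => ?_
        conv_lhs => rw [h2 d hd]
        rw [Finset.sum_mul]
        refine Finset.sum_congr rfl fun i _ => ?_
        rw [mul_assoc]
    _ = ∑ i ∈ F, b i * aeval z (cf (b.coord i) S) := by
        rw [Finset.sum_comm]
        refine Finset.sum_congr rfl fun i _ => ?_
        rw [aeval_cf, Finset.mul_sum]
    _ = 0 := Finset.sum_eq_zero fun i _ => by rw [h1, mul_zero]

end

/-- The ideal of the variety of planes over a larger field. -/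
theorem fano_map {K L : Type*} [Field K] [Field L] [Algebra K L]
    (F : MvPolynomial (Fin 10) K) : (fanoIdeal F).map
      (MvPolynomial.map (algebraMap K L) : MvPolynomial Idx K →+* MvPolynomial Idx L) =
      fanoIdeal (MvPolynomial.map (algebraMap K L) F) := by
  set ψ : MvPolynomial Idx K →+* MvPolynomial Idx L := MvPolynomial.map (algebraMap K L) with hψ
  have h1 : MvPolynomial.map ψ (aeval (fun j : Fin 10 => ∑ i : Fin 3, C (row X i j) * X i) F :
      MvPolynomial (Fin 3) (MvPolynomial Idx K)) =
      (aeval (fun j : Fin 10 => ∑ i : Fin 3, C (row X i j) * X i)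
        (MvPolynomial.map (algebraMap K L) F) : MvPolynomial (Fin 3) (MvPolynomial Idx L)) := by
    induction F using MvPolynomial.induction_on with
    | C a =>
      rw [map_C, algHom_C, algHom_C, MvPolynomial.algebraMap_apply, MvPolynomial.algebraMap_apply,
        map_C, MvPolynomial.algebraMap_apply, MvPolynomial.algebraMap_apply]
      congr 1
      rw [hψ]
      exact map_C _ _
    | add p q hp hq => rw [map_add, map_add, map_add, map_add, hp, hq]
    | mul_X p j hp =>
      rw [map_mul, map_mul, map_mul, map_mul, hp, map_X, aeval_X, aeval_X]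
      congr 1
      rw [map_sum]
      refine Finset.sum_congr rfl fun i _ => ?_
      rw [map_mul, map_C, map_X]
      have h2 := row_map ψ (X : Idx → MvPolynomial Idx K) i j
      rw [h2]
      have h3 : (fun q => ψ (X q)) = (X : Idx → MvPolynomial Idx L) := by
        funext q
        rw [hψ]
        exact map_X _ _
      rw [h3]
  rw [fanoIdeal, fanoIdeal, Ideal.map_span, ← Set.range_comp]
  congr 1
  congr 1
  funext m
  rw [Function.comp_apply, ← coeff_map, h1]

end Pool.Agent.Helper39.CQ
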